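import Mathlib

open CategoryTheory Limits Opposite Abelian

noncomputable section

namespace Pool.Agent.W487

variable {C : Type 1} [Category.{0} C] (J : GrothendieckTopology C)

instance hasShf : HasSheafify J AddCommGrpCat.{1} := inferInstance

/-- The free abelian sheaf on the sheaf represented by an object. -/
def ZF : C ⥤ Sheaf J AddCommGrpCat.{1} :=
  uliftYoneda.{1} ⋙ (Functor.whiskeringRight Cᵒᵖ _ _).obj AddCommGrpCat.free.{1} ⋙
    presheafToSheaf J _

/-- morphisms from `ZF T` to `A` are the sections of `A` over `T`. -/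
def secEquiv (T : C) (A : Sheaf J AddCommGrpCat.{1}) : ((ZF J).obj T ⟶ A) ≃ A.obj.obj (op T) :=
  ((sheafificationAdjunction J _).homEquiv _ _).trans <|
   ((AddCommGrpCat.adj.{1}.whiskerRight Cᵒᵖ).homEquiv _ _).trans uliftYonedaEquiv

variable {J}

/-- the tautological section of `ZF T` over `T` -/
def one (T : C) : ((ZF J).obj T).obj.obj (op T) :=
  (toSheafify J (uliftYoneda.{1}.obj T ⋙ AddCommGrpCat.free.{1})).app (op T)
    (FreeAbelianGroup.of ⟨𝟙 T⟩)

lemma secEquiv_apply (T : C) (A : Sheaf J AddCommGrpCat.{1}) (f : (ZF J).obj T ⟶ A) :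
    secEquiv J T A f = f.hom.app (op T) (one T) := by
  rfl

/-- the section of `A` over `T` given by a morphism from `ZF T`. -/
def sec {T : C} {A : Sheaf J AddCommGrpCat.{1}} (f : (ZF J).obj T ⟶ A) : A.obj.obj (op T) :=
  f.hom.app (op T) (one T)

def ofSec {T : C} {A : Sheaf J AddCommGrpCat.{1}} (a : A.obj.obj (op T)) : (ZF J).obj T ⟶ A :=
  (secEquiv J T A).symm a

@[simp] lemma sec_ofSec {T : C} {A : Sheaf J AddCommGrpCat.{1}} (a : A.obj.obj (op T)) :
    sec (ofSec a) = a :=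
  (secEquiv J T A).apply_symm_apply a

@[simp] lemma ofSec_sec {T : C} {A : Sheaf J AddCommGrpCat.{1}} (f : (ZF J).obj T ⟶ A) :
    ofSec (sec f) = f :=
  (secEquiv J T A).symm_apply_apply f

lemma sec_injective {T : C} {A : Sheaf J AddCommGrpCat.{1}} :
    Function.Injective (sec : ((ZF J).obj T ⟶ A) → A.obj.obj (op T)) :=
  (secEquiv J T A).injective

@[simp] lemma sec_comp {T : C} {A B : Sheaf J AddCommGrpCat.{1}} (f : (ZF J).obj T ⟶ A)
    (φ : A ⟶ B) : sec (f ≫ φ) = φ.hom.app (op T) (sec f) := rfl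

@[simp] lemma sec_zero {T : C} {A : Sheaf J AddCommGrpCat.{1}} :
    sec (0 : (ZF J).obj T ⟶ A) = 0 := rfl

@[simp] lemma sec_add {T : C} {A : Sheaf J AddCommGrpCat.{1}} (f g : (ZF J).obj T ⟶ A) :
    sec (f + g) = sec f + sec g := rfl

lemma one_map {T T' : C} (g : T' ⟶ T) :
    ((ZF J).map g).hom.app (op T') (one T') = ((ZF J).obj T).obj.map g.op (one T) := by
  have h1 := NatTrans.congr_app (toSheafify_naturality J
    (Functor.whiskerRight (uliftYoneda.{1}.map g) AddCommGrpCat.free.{1})) (op T')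
  have h2 := (toSheafify J (uliftYoneda.{1}.obj T ⋙ AddCommGrpCat.free.{1})).naturality g.op
  have h1' := congr($h1 (FreeAbelianGroup.of ⟨𝟙 T'⟩))
  have h2' := congr($h2 (FreeAbelianGroup.of ⟨𝟙 T⟩))
  refine h1'.symm.trans (Eq.trans ?_ h2')
  refine congrArg (ConcreteCategory.hom ((toSheafify J
    (uliftYoneda.{1}.obj T ⋙ AddCommGrpCat.free.{1})).app (op T'))) ?_
  refine (FreeAbelianGroup.map_of_apply _).trans
    (Eq.trans ?_ (FreeAbelianGroup.map_of_apply _).symm)
  refine congrArg FreeAbelianGroup.of (ULift.ext _ _ ?_)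
  exact (Category.id_comp g).trans (Category.comp_id g).symm

@[simp] lemma sec_map_comp {T T' : C} {A : Sheaf J AddCommGrpCat.{1}} (g : T' ⟶ T)
    (f : (ZF J).obj T ⟶ A) : sec ((ZF J).map g ≫ f) = A.obj.map g.op (sec f) := by
  have h := congr($(f.hom.naturality g.op) (one T))
  rw [sec_comp]
  refine Eq.trans ?_ h
  change f.hom.app (op T') (((ZF J).map g).hom.app (op T') (one T')) = _
  rw [one_map]
  rfl

/-! ### Local properties -/

lemma sec_inj_of_mono {A B : Sheaf J AddCommGrpCat.{1}} (φ : A ⟶ B) [Mono φ] {T : C}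
    {a b : A.obj.obj (op T)} (h : φ.hom.app (op T) a = φ.hom.app (op T) b) : a = b := by
  have : (ofSec a : (ZF J).obj T ⟶ A) ≫ φ = ofSec b ≫ φ := by
    apply sec_injective
    simpa using h
  rw [cancel_mono] at this
  simpa using congrArg sec this

lemma mono_of_sec {A B : Sheaf J AddCommGrpCat.{1}} (φ : A ⟶ B)
    (h : ∀ (T : C) (a b : A.obj.obj (op T)), φ.hom.app (op T) a = φ.hom.app (op T) b → a = b) :
    Mono φ := by
  refine ⟨fun {Z} u v huv => ?_⟩
  ext T z
  apply h (unop T)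
  exact congr(($huv).hom.app T z)

lemma epi_loc {A B : Sheaf J AddCommGrpCat.{1}} (φ : A ⟶ B) [Epi φ] {T : C}
    (b : B.obj.obj (op T)) : ∃ R ∈ J T, ∀ (T' : C) (f : T' ⟶ T), R f →
      ∃ a : A.obj.obj (op T'), φ.hom.app (op T') a = B.obj.map f.op b := by
  have : Sheaf.IsLocallySurjective φ := (Sheaf.isLocallySurjective_iff_epi' _ φ).2 inferInstance
  refine ⟨Presheaf.imageSieve φ.hom b, Presheaf.imageSieve_mem J φ.hom b, fun T' f hf => ?_⟩
  exact hf

lemma epi_of_loc {A B : Sheaf J AddCommGrpCat.{1}} (φ : A ⟶ B)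
    (h : ∀ (T : C) (b : B.obj.obj (op T)), ∃ R ∈ J T, ∀ (T' : C) (f : T' ⟶ T), R f →
      ∃ a : A.obj.obj (op T'), φ.hom.app (op T') a = B.obj.map f.op b) : Epi φ := by
  rw [← Sheaf.isLocallySurjective_iff_epi']
  refine ⟨fun {T} b => ?_⟩
  obtain ⟨R, hR, hR'⟩ := h T b
  exact J.superset_covering (fun T' f hf => hR' T' f hf) hR

lemma exact_sec {S : ShortComplex (Sheaf J AddCommGrpCat.{1})} (hS : S.Exact) [Mono S.f]
    {T : C} (y : S.X₂.obj.obj (op T)) (hy : S.g.hom.app (op T) y = 0) :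
    ∃ x : S.X₁.obj.obj (op T), S.f.hom.app (op T) x = y := by
  have h : (ofSec y : (ZF J).obj T ⟶ S.X₂) ≫ S.g = 0 := by
    apply sec_injective
    simpa using hy
  refine ⟨sec (hS.lift _ h), ?_⟩
  rw [← sec_comp, hS.lift_f]
  simp

lemma exact_of_loc (S : ShortComplex (Sheaf J AddCommGrpCat.{1}))
    (h : ∀ (T : C) (y : S.X₂.obj.obj (op T)), S.g.hom.app (op T) y = 0 →
      ∃ R ∈ J T, ∀ (T' : C) (f : T' ⟶ T), R f →
      ∃ a : S.X₁.obj.obj (op T'), S.f.hom.app (op T') a = S.X₂.obj.map f.op y) : S.Exact := by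
  rw [ShortComplex.exact_iff_epi_kernel_lift]
  apply epi_of_loc
  intro T b
  have hb : S.g.hom.app (op T) ((kernel.ι S.g).hom.app (op T) b) = 0 := by
    have := congr(($(kernel.condition S.g)).hom.app (op T) b)
    exact this
  obtain ⟨R, hR, hR'⟩ := h T _ hb
  refine ⟨R, hR, fun T' f hf => ?_⟩
  obtain ⟨a, ha⟩ := hR' T' f hf
  refine ⟨a, ?_⟩
  apply sec_inj_of_mono (kernel.ι S.g)
  have h1 := congr(($(kernel.lift_ι S.g S.f S.zero)).hom.app (op T') a)
  refine Eq.trans h1 (ha.trans ?_)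
  exact congr($((kernel.ι S.g).hom.naturality f.op) b).symm

end Pool.Agent.W487
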