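import Mathlib
import Pool.Agent.W487.Basic

open CategoryTheory Limits Opposite Abelian AlgebraicGeometry

noncomputable section

namespace Pool.Agent.W487

variable {S : Scheme.{0}}

/-- abelian sheaves on the big etale site of `S`. -/
abbrev Sh (S : Scheme.{0}) := Sheaf (Scheme.etaleTopology.over S) AddCommGrpCat.{1}

instance (S : Scheme.{0}) : IsGrothendieckAbelian.{1} (Sh S) := by
  have : EssentiallySmall.{1} (Over S) := inferInstance
  exact Sheaf.isGrothendieckAbelian_of_essentiallySmall (Scheme.etaleTopology.over S)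
    AddCommGrpCat.{1}

/-- free abelian sheaves on the big etale site of `S` -/
abbrev ZS (S : Scheme.{0}) : Over S ⥤ Sh S := ZF (Scheme.etaleTopology.over S)

instance hasExtSh (S : Scheme.{0}) : HasExt.{1} (Sh S) := inferInstance

lemma ofArrows_mem_over {T : Over S} {ι : Type} (X : ι → Over S) (f : ∀ i, X i ⟶ T)
    (h1 : ∀ i, Etale (f i).left) (h2 : ∀ x : T.left, ∃ i, x ∈ Set.range (f i).left) :
    Sieve.ofArrows X f ∈ (Scheme.etaleTopology.over S) T := by
  rw [GrothendieckTopology.mem_over_iff, Sieve.overEquiv_ofArrows]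
  exact Precoverage.generate_mem_toGrothendieck ((Scheme.ofArrows_mem_precoverage_iff _).2 ⟨h2, h1⟩)

lemma exists_cover {T : Over S} {R : Sieve T} (hR : R ∈ (Scheme.etaleTopology.over S) T) :
    ∃ (ι : Type) (X : ι → Over S) (f : ∀ i, X i ⟶ T), (∀ i, Etale (f i).left) ∧
      (∀ x : T.left, ∃ i, x ∈ Set.range (f i).left) ∧ ∀ i, R (f i) := by
  rw [GrothendieckTopology.mem_over_iff] at hR
  obtain ⟨𝒰, h⟩ := Scheme.exists_cover_of_mem_grothendieckTopology hR
  refine ⟨𝒰.I₀, fun i => Over.mk (𝒰.f i ≫ T.hom), fun i => Over.homMk (𝒰.f i), ?_, ?_, ?_⟩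
  · intro i
    exact 𝒰.map_prop i
  · intro x
    exact ((Scheme.ofArrows_mem_precoverage_iff _).1 𝒰.mem₀).1 x
  · intro i
    have := h _ _ ⟨i⟩
    rwa [Sieve.overEquiv_iff] at this

lemma subsingleton_of_isEmpty (A : Sh S) (T : Over S) [IsEmpty T.left] :
    Subsingleton (A.obj.obj (op T)) := by
  have h : (⊥ : Sieve T) ∈ (Scheme.etaleTopology.over S) T := by
    rw [GrothendieckTopology.mem_over_iff, map_bot]
    exact Scheme.bot_mem_grothendieckTopology _
  have h2 := (isSheaf_iff_isSheaf_of_type _ _).1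
    ((Presheaf.isSheaf_iff_isSheaf_forget _ A.obj (forget _)).1 A.property)
  refine ⟨fun a b => ?_⟩
  refine (h2.isSeparated _ h).ext ?_
  rintro Y f hf
  exact hf.elim

end Pool.Agent.W487
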