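import Mathlib

set_option linter.unusedSimpArgs false

noncomputable section

namespace Pool.Agent.W487

/-- `E[i]` -/
abbrev QA (E : Type) [CommRing E] := QuadraticAlgebra E (-1) 0

section
variable {A : Type} [CommRing A] {E E' E'' : Type} [CommRing E] [CommRing E'] [CommRing E'']
  [Algebra A E] [Algebra A E'] [Algebra A E'']

/-- functoriality of `E[i]` -/
def QAmap (f : E →ₐ[A] E') : QA E →ₐ[A] QA E' where
  toFun z := ⟨f z.re, f z.im⟩
  map_one' := by
    ext
    · exact map_one f
    · exact map_zero f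
  map_zero' := by ext <;> simp
  map_add' x y := by ext <;> simp
  map_mul' x y := by ext <;> simp
  commutes' r := by
    ext
    · change f (algebraMap A E r) = algebraMap A E' r
      simp
    · change f 0 = 0
      simp

@[simp] lemma QAmap_re (f : E →ₐ[A] E') (z : QA E) : (QAmap f z).re = f z.re := rfl
@[simp] lemma QAmap_im (f : E →ₐ[A] E') (z : QA E) : (QAmap f z).im = f z.im := rfl

lemma QAmap_surjective (f : E →ₐ[A] E') (hf : Function.Surjective f) :
    Function.Surjective (QAmap f) := by
  rintro ⟨x, y⟩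
  obtain ⟨x, rfl⟩ := hf x
  obtain ⟨y, rfl⟩ := hf y
  exact ⟨⟨x, y⟩, rfl⟩

lemma QAmap_comp (f : E →ₐ[A] E') (g : E' →ₐ[A] E'') :
    (QAmap g).comp (QAmap f) = QAmap (g.comp f) := rfl

/-- `A[x]/(f)` with `x` doubled -/
def dblX (A : Type) [CommRing A] (n : ℕ) :
    MvPolynomial (Fin n) A →ₐ[A] QA (MvPolynomial (Fin n ⊕ Fin n) A) :=
  MvPolynomial.aeval (fun i => ⟨MvPolynomial.X (Sum.inl i), MvPolynomial.X (Sum.inr i)⟩)

def dblEv (n : ℕ) (x : Fin n → QA E) : MvPolynomial (Fin n ⊕ Fin n) A →ₐ[A] E :=
  MvPolynomial.aeval (Sum.elim (fun i => (x i).re) (fun i => (x i).im))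

lemma dblEv_dblX (n : ℕ) (x : Fin n → QA E) :
    (QAmap (dblEv (A := A) n x)).comp (dblX A n) = MvPolynomial.aeval x := by
  apply MvPolynomial.algHom_ext
  intro i
  simp only [dblX, dblEv, AlgHom.comp_apply, MvPolynomial.aeval_X]
  ext <;> simp

end

variable (A B : Type) [CommRing A] [CommRing B] [Algebra A B]

/-- Weil restriction of a finitely presented algebra along `A → A[i]`. -/
theorem weil_exists [Algebra.FinitePresentation A B] :
    ∃ (D : Type) (_ : CommRing D) (_ : Algebra A D) (β : B →ₐ[A] QA D),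
      Algebra.FinitePresentation A D ∧
      (∀ (E : Type) [CommRing E] [Algebra A E] (θ : B →ₐ[A] QA E),
        ∃ f : D →ₐ[A] E, (QAmap f).comp β = θ) ∧
      (∀ (E : Type) [CommRing E] [Algebra A E] (f f' : D →ₐ[A] E),
        (QAmap f).comp β = (QAmap f').comp β → f = f') := by
  obtain ⟨n, p, hp, hfg⟩ := Algebra.FinitePresentation.out (R := A) (A := B)
  obtain ⟨s, hs⟩ := hfg
  let P := MvPolynomial (Fin n ⊕ Fin n) A
  let sI : Set P := (fun g => (dblX A n g).re) '' s ∪ (fun g => (dblX A n g).im) '' s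
  let I : Ideal P := Ideal.span sI
  have hsI : sI.Finite := Set.Finite.union (s.finite_toSet.image _) (s.finite_toSet.image _)
  have hI : I.FG := ⟨hsI.toFinset, by rw [Set.Finite.coe_toFinset]⟩
  let D := P ⧸ I
  let pr : P →ₐ[A] D := Ideal.Quotient.mkₐ A I
  let β0 : MvPolynomial (Fin n) A →ₐ[A] QA D := (QAmap pr).comp (dblX A n)
  have hβ0 : ∀ g ∈ RingHom.ker p.toRingHom, β0 g = 0 := by
    intro g hg
    rw [← hs] at hg
    refine Submodule.span_induction (p := fun g _ => β0 g = 0) ?_ (map_zero _) ?_ ?_ hg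
    · intro x hx
      change QAmap pr (dblX A n x) = 0
      ext
      · simp only [QAmap_re, QuadraticAlgebra.re_zero]
        exact Ideal.Quotient.eq_zero_iff_mem.2 (Ideal.subset_span (Or.inl ⟨x, hx, rfl⟩))
      · simp only [QAmap_im, QuadraticAlgebra.im_zero]
        exact Ideal.Quotient.eq_zero_iff_mem.2 (Ideal.subset_span (Or.inr ⟨x, hx, rfl⟩))
    · intro x y _ _ hx hy
      rw [map_add, hx, hy, add_zero]
    · intro a x _ hx
      rw [smul_eq_mul, map_mul, hx, mul_zero]
  obtain ⟨β, hβ⟩ : ∃ β : B →ₐ[A] QA D, β.comp p = β0 := by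
    let e := Ideal.quotientKerAlgEquivOfSurjective hp
    refine ⟨(Ideal.Quotient.liftₐ (RingHom.ker p) β0 hβ0).comp e.symm.toAlgHom, ?_⟩
    apply AlgHom.ext
    intro x
    have h3 : e.symm (p x) = Ideal.Quotient.mk _ x := by
      rw [AlgEquiv.symm_apply_eq]
      rfl
    change Ideal.Quotient.liftₐ (RingHom.ker p) β0 hβ0 (e.symm (p x)) = β0 x
    rw [h3]
    rfl
  refine ⟨D, inferInstance, inferInstance, β, Algebra.FinitePresentation.quotient hI, ?_, ?_⟩
  · intro E _ _ θ
    let x : Fin n → QA E := fun i => θ (p (MvPolynomial.X i))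
    have hx : MvPolynomial.aeval x = θ.comp p := by
      apply MvPolynomial.algHom_ext
      intro i
      simp [x]
    have h0 : ∀ a ∈ I, dblEv (A := A) n x a = 0 := by
      intro a ha
      refine Submodule.span_induction (p := fun a _ => dblEv (A := A) n x a = 0) ?_ (map_zero _)
        ?_ ?_ ha
      · rintro y (⟨g, hg, rfl⟩ | ⟨g, hg, rfl⟩)
        · have h1 := congr(($(dblEv_dblX (A := A) n x) g).re)
          have h2 : p g = 0 := by
            have : g ∈ RingHom.ker p.toRingHom := by rw [← hs]; exact Ideal.subset_span hg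
            exact this
          rw [hx] at h1
          simp only [AlgHom.comp_apply, h2, map_zero, QuadraticAlgebra.re_zero, QAmap_re] at h1
          exact h1
        · have h1 := congr(($(dblEv_dblX (A := A) n x) g).im)
          have h2 : p g = 0 := by
            have : g ∈ RingHom.ker p.toRingHom := by rw [← hs]; exact Ideal.subset_span hg
            exact this
          rw [hx] at h1
          simp only [AlgHom.comp_apply, h2, map_zero, QuadraticAlgebra.im_zero, QAmap_im] at h1
          exact h1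
      · intro y z _ _ hy hz
        rw [map_add, hy, hz, add_zero]
      · intro a y _ hy
        rw [smul_eq_mul, map_mul, hy, mul_zero]
    let f : D →ₐ[A] E := Ideal.Quotient.liftₐ I (dblEv (A := A) n x) h0
    refine ⟨f, ?_⟩
    have hf : f.comp pr = dblEv (A := A) n x := by
      apply AlgHom.ext
      intro a
      rfl
    rw [← AlgHom.cancel_right hp, AlgHom.comp_assoc, hβ, ← hx, ← dblEv_dblX, ← hf, ← QAmap_comp,
      AlgHom.comp_assoc]
  · intro E _ _ f f' h
    have hpr : Function.Surjective pr := Ideal.Quotient.mkₐ_surjective A I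
    rw [← AlgHom.cancel_right hpr]
    have h1 : (QAmap f).comp β0 = (QAmap f').comp β0 := by
      rw [← hβ, ← AlgHom.comp_assoc, ← AlgHom.comp_assoc, h]
    apply MvPolynomial.algHom_ext
    rintro (i | i)
    · have := congr(($h1 (MvPolynomial.X i)).re)
      simp [β0, dblX] at this
      exact this
    · have := congr(($h1 (MvPolynomial.X i)).im)
      simp [β0, dblX] at this
      exact this

/-- Weil restriction of an etale algebra along `A → A[i]`. -/
theorem weil_etale [Algebra.Etale A B] :
    ∃ (D : Type) (_ : CommRing D) (_ : Algebra A D) (β : B →ₐ[A] QA D),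
      Algebra.Etale A D ∧
      (∀ (E : Type) [CommRing E] [Algebra A E] (θ : B →ₐ[A] QA E),
        ∃ f : D →ₐ[A] E, (QAmap f).comp β = θ) := by
  obtain ⟨D, _, _, β, hD, h1, h2⟩ := weil_exists A B
  refine ⟨D, inferInstance, inferInstance, β, ?_, h1⟩
  have : Algebra.FormallyEtale A D := by
    rw [Algebra.FormallyEtale.iff_comp_bijective]
    intro E _ _ I hI
    let π : E →ₐ[A] E ⧸ I := Ideal.Quotient.mkₐ A I
    have hπ : Function.Surjective π := Ideal.Quotient.mkₐ_surjective A I
    have hker : IsNilpotent (RingHom.ker (QAmap π : QA E →+* QA (E ⧸ I))) := by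
      refine ⟨2, ?_⟩
      rw [pow_two, Submodule.zero_eq_bot, eq_bot_iff, Ideal.mul_le]
      intro x hx y hy
      have hx1 : x.re ∈ I := Ideal.Quotient.eq_zero_iff_mem.1 congr($(hx).re)
      have hx2 : x.im ∈ I := Ideal.Quotient.eq_zero_iff_mem.1 congr($(hx).im)
      have hy1 : y.re ∈ I := Ideal.Quotient.eq_zero_iff_mem.1 congr($(hy).re)
      have hy2 : y.im ∈ I := Ideal.Quotient.eq_zero_iff_mem.1 congr($(hy).im)
      have key : ∀ a ∈ I, ∀ b ∈ I, a * b = 0 := by
        intro a ha b hb
        have : a * b ∈ I ^ 2 := by rw [pow_two]; exact Ideal.mul_mem_mul ha hb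
        rw [hI] at this
        exact this
      rw [Ideal.mem_bot]
      ext
      · simp [key _ hx1 _ hy1, key _ hx2 _ hy2]
      · simp [key _ hx1 _ hy2, key _ hx2 _ hy1]
    constructor
    · intro f f' hff
      apply h2
      apply Algebra.FormallyUnramified.lift_unique_of_ringHom (QAmap π : QA E →+* QA (E ⧸ I)) hker
      have : (QAmap π).comp ((QAmap f).comp β) = (QAmap π).comp ((QAmap f').comp β) := by
        rw [← AlgHom.comp_assoc, ← AlgHom.comp_assoc, QAmap_comp, QAmap_comp]
        exact congrArg (fun z => (QAmap z).comp β) hff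
      exact congrArg (fun z : B →ₐ[A] QA (E ⧸ I) => (z : B →+* QA (E ⧸ I))) this
    · intro fb
      let θ := Algebra.FormallySmooth.liftOfSurjective ((QAmap fb).comp β) (QAmap π)
        (QAmap_surjective π hπ) hker
      have hθ : (QAmap π).comp θ = (QAmap fb).comp β :=
        Algebra.FormallySmooth.comp_liftOfSurjective _ _ _ _
      obtain ⟨f, hf⟩ := h1 E θ
      refine ⟨f, ?_⟩
      apply h2
      rw [← hθ, ← hf, ← AlgHom.comp_assoc, QAmap_comp]
  exact {}

end Pool.Agent.W487
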