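import Mathlib

open CategoryTheory Limits AlgebraicGeometry Opposite LaurentPolynomial

universe u

noncomputable section

namespace Pool.Agent.W487

/-- The presheaf of abelian groups `T ↦ Γ(T, O_T)ˣ` on the category of schemes. -/
def unitsPresheaf : Scheme.{0}ᵒᵖ ⥤ AddCommGrpCat.{1} :=
  Scheme.Γ ⋙ forget₂ CommRingCat CommMonCat ⋙ CommMonCat.units ⋙ CommGrpCat.toAddCommGrp ⋙
    AddCommGrpCat.uliftFunctor.{1, 0}

/-- the unit `T` -/
def lunit : (ℤ[T;T⁻¹])ˣ := ⟨T 1, T (-1), by rw [← T_add]; simp, by rw [← T_add]; simp⟩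

def laurentEquiv (A : Type) [CommRing A] : (ℤ[T;T⁻¹] →+* A) ≃ Aˣ where
  toFun φ := Units.map (φ : _ →* _) lunit
  invFun u := LaurentPolynomial.eval₂ (Int.castRingHom A) u
  left_inv φ := by
    apply IsLocalization.ringHom_ext (Submonoid.powers (Polynomial.X : Polynomial ℤ))
    apply Polynomial.ringHom_ext
    · intro a; simp
    · simp [lunit]
  right_inv u := by
    ext
    simp [lunit]

def toUnit (X : Scheme.{0}) (f : X ⟶ Spec (.of ℤ[T;T⁻¹])) : Γ(X, ⊤)ˣ :=
  laurentEquiv _ ((Scheme.ΓSpecIso (.of ℤ[T;T⁻¹])).inv ≫ f.appTop).hom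

lemma toUnit_bijective (X : Scheme.{0}) : Function.Bijective (toUnit X) := by
  constructor
  · intro f g h
    apply ext_to_Spec
    have := (laurentEquiv _).injective h
    ext1
    exact this
  · intro u
    refine ⟨X.toSpecΓ ≫ Spec.map (CommRingCat.ofHom ((laurentEquiv _).symm u)), ?_⟩
    rw [toUnit, ← Equiv.eq_symm_apply]
    have : (Scheme.ΓSpecIso (.of ℤ[T;T⁻¹])).inv ≫
      (X.toSpecΓ ≫ Spec.map (CommRingCat.ofHom ((laurentEquiv _).symm u))).appTop =
        CommRingCat.ofHom ((laurentEquiv _).symm u) := by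
      rw [Scheme.Hom.comp_appTop, Scheme.toSpecΓ_appTop, Iso.inv_comp_eq]
      exact Scheme.ΓSpecIso_naturality _
    rw [this]
    rfl

def unitsRepr : (unitsPresheaf ⋙ forget AddCommGrpCat.{1}).RepresentableBy
    (Spec (.of ℤ[T;T⁻¹])) where
  homEquiv {X} := (Equiv.ofBijective _ (toUnit_bijective X)).trans
      (Additive.ofMul.trans Equiv.ulift.symm)
  homEquiv_comp {X X'} f g := by
    apply ULift.ext
    apply Additive.toMul.injective
    apply Units.ext
    change ((toUnit X (f ≫ g) : Γ(X,⊤)ˣ) : Γ(X, ⊤)) = f.appTop.hom (toUnit X' g)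
    simp [toUnit, laurentEquiv, Scheme.Hom.appTop]

instance : (unitsPresheaf ⋙ forget AddCommGrpCat.{1}).IsRepresentable := unitsRepr.isRepresentable

lemma isSheaf_units : Presheaf.IsSheaf Scheme.etaleTopology unitsPresheaf := by
  apply Presheaf.isSheaf_of_isSheaf_comp _ _ (forget AddCommGrpCat)
  rw [isSheaf_iff_isSheaf_of_type]
  have : Presieve.IsSheaf Scheme.fpqcTopology (unitsPresheaf ⋙ forget AddCommGrpCat.{1}) :=
    GrothendieckTopology.Subcanonical.isSheaf_of_isRepresentable _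
  exact Presieve.isSheaf_of_le _ (Scheme.etaleTopology_le_proetaleTopology.trans
    Scheme.proetaleTopology_le_fpqcTopology) this

/-- the sheaf `G_m` on the big etale site of schemes -/
def GmAll : Sheaf Scheme.etaleTopology.{0} AddCommGrpCat.{1} := ⟨unitsPresheaf, isSheaf_units⟩

def Gm (S : Scheme.{0}) : Sheaf (Scheme.etaleTopology.over S) AddCommGrpCat.{1} := GmAll.over S

end Pool.Agent.W487
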