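import Mathlib

set_option linter.unusedSimpArgs false

noncomputable section

namespace Pool.Agent.W487

open Polynomial Filter Topology

lemma continuous_evalEval' (p : Polynomial (Polynomial ℝ)) : Continuous (fun z : ℝ × ℝ => p.evalEval z.1 z.2) := by
  induction p using Polynomial.induction_on' with
  | add p q hp hq =>
    simp only [evalEval_add]
    exact hp.add hq
  | monomial n a =>
    have : ∀ z : ℝ × ℝ, (monomial n a : Polynomial (Polynomial ℝ)).evalEval z.1 z.2 = a.eval z.1 * z.2 ^ n := by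
      intro z
      rw [← C_mul_X_pow_eq_monomial]
      simp [evalEval_mul, evalEval_C, evalEval_pow, evalEval_X]
    simp_rw [this]
    fun_prop

/-- simple real roots persist -/
lemma root_near (p g : Polynomial (Polynomial ℝ)) (x₀ y₀ : ℝ) (hp : p.evalEval x₀ y₀ = 0)
    (hp' : (derivative p).evalEval x₀ y₀ ≠ 0) (hg : g.evalEval x₀ y₀ ≠ 0) :
    ∀ᶠ x in 𝓝 x₀, ∃ y, p.evalEval x y = 0 ∧ g.evalEval x y ≠ 0 := by
  -- the fibre polynomial
  let P : ℝ[X] := p.map (evalRingHom x₀)
  have hPe : ∀ y, P.eval y = p.evalEval x₀ y := by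
    intro y
    simp only [P, eval_map, ← coe_evalEvalRingHom, eval₂_evalRingHom]
  have hP0 : P.IsRoot y₀ := by
    rw [IsRoot, hPe, hp]
  obtain ⟨Q, hQ⟩ := dvd_iff_isRoot.2 hP0
  have hQ0 : Q.eval y₀ ≠ 0 := by
    have h1 : (derivative P).eval y₀ = Q.eval y₀ := by
      rw [hQ]
      simp
    rw [← h1]
    have h2 : derivative P = (derivative p).map (evalRingHom x₀) := by
      simp only [P, derivative_map]
    rw [h2, eval_map]
    simpa only [← coe_evalEvalRingHom, eval₂_evalRingHom] using hp'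
  have hev : ∀ᶠ y in 𝓝 y₀, 0 < Q.eval y * Q.eval y₀ := by
    have : ContinuousAt (fun y => Q.eval y * Q.eval y₀) y₀ := by fun_prop
    exact this.eventually_mem (lt_mem_nhds (by
      have := mul_self_pos.2 hQ0
      simpa using this))
  have hgev : ∀ᶠ z in 𝓝 (x₀, y₀), g.evalEval z.1 z.2 ≠ 0 :=
    (continuous_evalEval' g).continuousAt.eventually_ne hg
  rw [nhds_prod_eq, Filter.eventually_prod_iff] at hgev
  obtain ⟨pa, hpa, pb, hpb, hgab⟩ := hgev
  obtain ⟨δ, hδ, hball⟩ := Metric.eventually_nhds_iff_ball.1 (hev.and hpb)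
  have hδ2 : (0 : ℝ) < δ / 2 := by linarith
  have hin : ∀ y, |y - y₀| ≤ δ / 2 → (0 < Q.eval y * Q.eval y₀) ∧ pb y := by
    intro y hy
    apply hball
    rw [Metric.mem_ball, Real.dist_eq]
    linarith
  have h1 : 0 < p.evalEval x₀ (y₀ + δ / 2) * Q.eval y₀ := by
    have h2 := (hin (y₀ + δ / 2) (by rw [add_sub_cancel_left, abs_of_pos hδ2])).1
    rw [← hPe, hQ]
    simp only [eval_mul, eval_sub, eval_X, eval_C, add_sub_cancel_left]
    nlinarith
  have h2 : p.evalEval x₀ (y₀ - δ / 2) * Q.eval y₀ < 0 := by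
    have h2 := (hin (y₀ - δ / 2) (by
      rw [sub_sub_cancel_left, abs_neg, abs_of_pos hδ2])).1
    rw [← hPe, hQ]
    simp only [eval_mul, eval_sub, eval_X, eval_C, sub_sub_cancel_left]
    nlinarith
  have hc : ∀ y, Continuous (fun x => p.evalEval x y * Q.eval y₀) := fun y =>
    ((continuous_evalEval' p).comp (by fun_prop : Continuous (fun x : ℝ => (x, y)))).mul
      continuous_const
  have e1 : ∀ᶠ x in 𝓝 x₀, 0 < p.evalEval x (y₀ + δ / 2) * Q.eval y₀ :=
    (hc _).continuousAt.eventually_mem (lt_mem_nhds h1)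
  have e2 : ∀ᶠ x in 𝓝 x₀, p.evalEval x (y₀ - δ / 2) * Q.eval y₀ < 0 :=
    (hc _).continuousAt.eventually_mem (gt_mem_nhds h2)
  filter_upwards [e1, e2, hpa] with x hx1 hx2 hx3
  have hcy : ContinuousOn (fun y => p.evalEval x y * Q.eval y₀)
      (Set.Icc (y₀ - δ / 2) (y₀ + δ / 2)) :=
    (((continuous_evalEval' p).comp (by fun_prop : Continuous (fun y : ℝ => (x, y)))).mul
      continuous_const).continuousOn
  obtain ⟨y, hy, hy0⟩ := intermediate_value_Icc (by linarith) hcy ⟨hx2.le, hx1.le⟩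
  refine ⟨y, ?_, ?_⟩
  · exact (mul_eq_zero.1 hy0).resolve_right hQ0
  · apply hgab hx3
    apply (hin y _).2
    rw [abs_le]
    constructor <;> linarith [hy.1, hy.2]

end Pool.Agent.W487
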